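import Pool.Agent.Helper944.Univ

set_option autoImplicit false

namespace Pool.Agent.Results.MP_199925_al.UniversalNilpotent

open Pool.Agent.Helper944

/-- There is a countable periodic locally nilpotent group in which every countable periodic
locally nilpotent group embeds. -/
theorem result.{u} :
    ∃ (U : Type) (_ : Group U), Countable U ∧ (∀ g : U, IsOfFinOrder g) ∧
      (∀ K : Subgroup U, K.FG → Group.IsNilpotent K) ∧
      ∀ (H : Type u) [Group H] [Countable H], (∀ g : H, IsOfFinOrder g) →
        (∀ K : Subgroup H, K.FG → Group.IsNilpotent K) →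
        ∃ f : H →* U, Function.Injective f := by
  obtain ⟨U, gU, cU, hper, hnil, huniv⟩ := exists_universal
  refine ⟨U, gU, cU, hper, ?_, ?_⟩
  · rintro K ⟨s, rfl⟩
    exact hnil _ s.finite_toSet
  · intro H _ _ hHper hHnil
    have e : Shrink.{0} H ≃* H := Shrink.mulEquiv
    have hcount : Countable (Shrink.{0} H) := e.toEquiv.countable_iff.mpr inferInstance
    obtain ⟨f, hf⟩ := huniv (Shrink.{0} H) (by
      intro g
      have h1 := hHper (e g)
      exact (Function.Injective.isOfFinOrder_iff (f := e.toMonoidHom) e.injective).mp h1) (by
      intro s hs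
      have hK : ((Subgroup.closure s).map e.toMonoidHom).FG := by
        refine ⟨(hs.image e).toFinset, ?_⟩
        rw [Set.Finite.coe_toFinset]
        exact (MonoidHom.map_closure e.toMonoidHom s).symm
      have h1 := hHnil _ hK
      let e' : Subgroup.closure s ≃* (Subgroup.closure s).map e.toMonoidHom :=
        (Subgroup.closure s).equivMapOfInjective e.toMonoidHom e.injective
      exact (Group.isNilpotent_congr e').mpr h1)
    exact ⟨f.comp e.symm.toMonoidHom, hf.comp e.symm.injective⟩

end Pool.Agent.Results.MP_199925_al.UniversalNilpotent
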